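import Mathlib
import Pool.Agent.MP_5139aa_an.Cl.Setup

set_option autoImplicit false

namespace Pool.Agent.Results.MP_5139aa_an.HereditaryFactors

open Pool.Agent.MP_5139aa_an.Cl

/-- Let `(Y, S)` be a factor of a Hilbert representable compact metric system `(X, T)`, and let
`(Y, S)` have a dense orbit. Then all factors of `(Y, S)`, itself included, are Hilbert
representable if and only if the enveloping semigroup of `(Y, S)` is regular and its idempotents
have small semilattices (every idempotent has a base of relative neighbourhoods closed under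
composition). -/
theorem result (X Y : Type) [MetricSpace X] [CompactSpace X] [MetricSpace Y] [CompactSpace Y]
    (T : X ≃ₜ X) (S : Y ≃ₜ Y) (π : X → Y) (hπ : Continuous π) (hs : Function.Surjective π)
    (he : ∀ x, π (T x) = S (π x)) (hT : HilbRep T)
    (y₀ : Y) (hy : DenseRange fun n : ℤ => (S ^ n) y₀) :
    (∀ (Z : Type) [MetricSpace Z] [CompactSpace Z] (R : Z ≃ₜ Z) (ρ : Y → Z),
      Continuous ρ → Function.Surjective ρ → (∀ y, ρ (S y) = R (ρ y)) → HilbRep R) ↔
    ((∀ p ∈ Ellis S, ∃ q ∈ Ellis S, p ∘ q ∘ p = p) ∧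
      ∀ e ∈ Idem S, ∀ V ∈ nhdsWithin e (Idem S), ∃ W ∈ nhdsWithin e (Idem S),
        W ⊆ V ∧ ∀ a ∈ W, ∀ b ∈ W, a ∘ b ∈ W) :=
  ⟨neg_main hy, fun h Z _ _ R ρ h1 h2 h3 => pos_main hT hπ hs he hy h Z R ρ h1 h2 h3⟩

end Pool.Agent.Results.MP_5139aa_an.HereditaryFactors
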